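import Pool.Agent.helper88.RQ2.Spec

/-! Row AST of the project RQ (MP_bb0bb6_co): strict form of `deletion_T`. -/

set_option autoImplicit false

open Set Matroid RadonMin

namespace RadonQ2

theorem AST_core (m N R j tj cm : ℤ) (hj : 2 ≤ j) (hR : 3 ≤ R) (hm : m = 2 * j ∨ m = 2 * j + 1)
    (ht : 2 * tj = j * (j + 1)) (hc : 2 * cm = m * (m - 1)) (hN : m * (R + 1) < 2 * (N + 1)) : cm < j * N - tj * R := by
  rcases hm with rfl | rfl
  · have h1 : j * (R + 1) ≤ N := by nlinarith
    have h2 : j * (j * (R + 1)) ≤ j * N := mul_le_mul_of_nonneg_left h1 (by linarith)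
    have h3 : 0 < (j * j - j) * (R - 2) := mul_pos (by nlinarith) (by linarith)
    have h4 : 2 * (tj * R) = j * (j + 1) * R := by rw [← ht]; ring
    nlinarith
  · rcases hR.lt_or_eq with h | h
    · have h1 : 2 * j * R + 2 * j + R ≤ 2 * N := by nlinarith
      have h2 : j * (2 * j * R + 2 * j + R) ≤ j * (2 * N) := mul_le_mul_of_nonneg_left h1 (by linarith)
      have h3 : 0 < j * (j * (R - 2) - 2) := mul_pos (by linarith) (by nlinarith)
      have h4 : 2 * (tj * R) = j * (j + 1) * R := by rw [← ht]; ring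
      nlinarith
    · subst h
      have h1 : 4 * j + 2 ≤ N := by omega
      have h2 : j * (4 * j + 2) ≤ j * N := mul_le_mul_of_nonneg_left h1 (by linarith)
      nlinarith

theorem AST_proof : AST_stmt := fun m N R j tj cm hj hR hm ht hc hN => AST_core m N R j tj cm hj hR hm ht hc hN

end RadonQ2
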